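import Pool.Agent.Helper392.H1.Bridge

set_option autoImplicit false

open MeasureTheory Pool.Agent.Helper392.H1S

namespace Pool.Agent.Results.MP_a956f7_an.ExpBall

/-- Negative answer. In exponential coordinates there are a Carnot group (dimension 14, rank 7,
step 3), a Euclidean ball and a linear function `φ` such that the Dirichlet problem for the
sub-Laplacian (`p = 2`, `f = |ξ|^2 / 2`) in the ball with boundary values `φ` has a weak solution,
and every weak solution has an essentially unbounded horizontal gradient. -/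
theorem result :
    ∃ (G : Carnot (EuclideanSpace ℝ (Fin 14)) 7) (c : EuclideanSpace ℝ (Fin 14)) (r : ℝ)
      (φ : EuclideanSpace ℝ (Fin 14) →L[ℝ] ℝ), G.step = 3 ∧ 0 < r ∧
      (∃ u U, IsSol G (Metric.ball c r) φ u U) ∧
      ∀ u U, IsSol G (Metric.ball c r) φ u U →
        ∀ M : ℝ, ¬ ∀ᵐ x ∂(volume.restrict (Metric.ball c r)), ∀ i, |U i x| ≤ M :=
  Pool.Agent.Helper392.H1B.main

end Pool.Agent.Results.MP_a956f7_an.ExpBall
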